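import Mathlib
import Pool.Agent.TH974.IH.Asm

set_option autoImplicit false

open MeasureTheory

namespace Pool.Agent.Results.MP_79dc3a_pr.ClusterConstant

/-- The edges of the lattice `ℤ^d`: the pair `(x, i)` is the edge between `x` and `x + e_i`. -/
abbrev Edge (d : ℕ) := (Fin d → ℤ) × Fin d

/-- The law of one edge: open (`true`) with probability `p`, closed (`false`) otherwise. -/
noncomputable def bernoulli (p : ℝ) : Measure Bool :=
  ENNReal.ofReal p • Measure.dirac true + ENNReal.ofReal (1 - p) • Measure.dirac false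

/-- Bernoulli bond percolation on `ℤ^d`: the edges are open independently with probability `p`. -/
noncomputable def percolation (d : ℕ) (p : ℝ) : Measure (Edge d → Bool) :=
  Measure.infinitePi fun _ => bernoulli p

/-- The graph of the open edges. -/
def openGraph {d : ℕ} (ω : Edge d → Bool) : SimpleGraph (Fin d → ℤ) :=
  SimpleGraph.fromRel fun x y => ∃ i : Fin d, ω (x, i) = true ∧ y = x + Pi.single i 1

open Classical in
/-- The function `u` on the cluster `C` (a connected component of the graph of the open edges) is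
harmonic: at every `x ∈ C` the sum of `u y - u x` over the neighbours `y` of `x` in `C` vanishes. -/
def IsHarmonic {d : ℕ} (ω : Edge d → Bool) (C : (openGraph ω).ConnectedComponent)
    (u : C.supp → ℤ) : Prop :=
  ∀ x : C.supp, ∑ᶠ y : C.supp, (if (openGraph ω).Adj x y then u y - u x else 0) = 0

open Pool.Agent.TH974.IH in
theorem adj_iff {d : ℕ} (ω : Edge d → Bool) (x y : Fin d → ℤ) :
    (openGraph ω).Adj x y ↔ ∃ i : Fin d, (ω (x, i) = true ∧ y = x + Pi.single i 1) ∨
      (ω (y, i) = true ∧ x = y + Pi.single i 1) := by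
  rw [openGraph, SimpleGraph.fromRel_adj]
  constructor
  · rintro ⟨_, ⟨i, h⟩ | ⟨i, h⟩⟩
    · exact ⟨i, Or.inl h⟩
    · exact ⟨i, Or.inr h⟩
  · rintro ⟨i, h | h⟩
    · refine ⟨?_, Or.inl ⟨i, h⟩⟩
      intro hxy
      have h1 := congrFun h.2 i
      rw [← hxy] at h1
      simp at h1
    · refine ⟨?_, Or.inr ⟨i, h⟩⟩
      intro hxy
      have h1 := congrFun h.2 i
      rw [← hxy] at h1
      simp at h1

open Classical in
/-- the Laplacian as a finsum over the neighbours -/
theorem lap_eq {d : ℕ} (ω : Edge d → Bool) (u : (Fin d → ℤ) → ℤ) (x : Fin d → ℤ) :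
    ∑ᶠ y, (if (openGraph ω).Adj x y then u y - u x else 0) = Pool.Agent.TH974.IH.Lap ω u x := by
  have hs : ∀ i j : Fin d, (Pi.single i 1 : Fin d → ℤ) = Pi.single j 1 → i = j := by
    intro i j h
    by_contra hne
    have := congrFun h i
    rw [Pi.single_eq_same, Pi.single_eq_of_ne hne] at this
    exact one_ne_zero this
  have hinj1 : Function.Injective fun i : Fin d => x + Pi.single i 1 := by
    intro i j h
    exact hs i j (add_left_cancel h)
  have hinj2 : Function.Injective fun i : Fin d => x - Pi.single i 1 := by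
    intro i j h
    exact hs i j (sub_right_injective h)
  have hneg : ∀ i j : Fin d, x + Pi.single i 1 ≠ x - Pi.single j (1 : ℤ) := by
    intro i j h
    have h1 := congrFun h i
    simp only [Pi.add_apply, Pi.sub_apply, Pi.single_eq_same] at h1
    by_cases hij : i = j
    · subst hij; simp only [Pi.single_eq_same] at h1; omega
    · rw [Pi.single_eq_of_ne hij] at h1; simp at h1
  set T1 := (Finset.univ : Finset (Fin d)).image fun i => x + Pi.single i 1 with hT1
  set T2 := (Finset.univ : Finset (Fin d)).image fun i => x - Pi.single i (1 : ℤ) with hT2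
  have hdisj : Disjoint T1 T2 := by
    rw [Finset.disjoint_left]
    intro a h1 h2
    rw [hT1, Finset.mem_image] at h1
    rw [hT2, Finset.mem_image] at h2
    obtain ⟨i, -, rfl⟩ := h1
    obtain ⟨j, -, h⟩ := h2
    exact hneg i j h.symm
  rw [finsum_eq_sum_of_support_subset (s := T1 ∪ T2)]
  · rw [Finset.sum_union hdisj, hT1, hT2, Finset.sum_image (fun i _ j _ h => hinj1 h),
      Finset.sum_image (fun i _ j _ h => hinj2 h), ← Finset.sum_add_distrib]
    unfold Pool.Agent.TH974.IH.Lap
    refine Finset.sum_congr rfl fun i _ => ?_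
    have h1 : (openGraph ω).Adj x (x + Pi.single i 1) ↔ ω (x, i) = true := by
      rw [adj_iff]
      constructor
      · rintro ⟨j, ⟨h, h'⟩ | ⟨h, h'⟩⟩
        · rw [hs i j (add_left_cancel h')]; exact h
        · exfalso
          have : x + Pi.single i 1 = x - Pi.single j (1 : ℤ) := by
            rw [eq_sub_iff_add_eq]; exact h'.symm
          exact hneg i j this
      · intro h
        exact ⟨i, Or.inl ⟨h, rfl⟩⟩
    have h2 : (openGraph ω).Adj x (x - Pi.single i 1) ↔ ω (x - Pi.single i 1, i) = true := by
      rw [adj_iff]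
      constructor
      · rintro ⟨j, ⟨h, h'⟩ | ⟨h, h'⟩⟩
        · exact absurd h'.symm (hneg j i)
        · have : x - Pi.single j (1 : ℤ) = x - Pi.single i 1 := by
            rw [sub_eq_iff_eq_add]; exact h'
          rw [hs i j (sub_right_injective this).symm] at h ⊢
          exact h
      · intro h
        exact ⟨i, Or.inr ⟨h, by rw [sub_add_cancel]⟩⟩
    simp only [h1, h2]
  · intro y hy
    rw [Function.mem_support] at hy
    have hadj : (openGraph ω).Adj x y := by
      by_contra h
      exact hy (if_neg h)
    rw [adj_iff] at hadj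
    rw [Finset.coe_union, Set.mem_union]
    obtain ⟨i, ⟨_, h⟩ | ⟨_, h⟩⟩ := hadj
    · left
      rw [hT1, Finset.mem_coe, Finset.mem_image]
      exact ⟨i, Finset.mem_univ i, h.symm⟩
    · right
      rw [hT2, Finset.mem_coe, Finset.mem_image]
      exact ⟨i, Finset.mem_univ i, by rw [h, add_sub_cancel_right]⟩

/-- **Theorem.** Let `d ≥ 2` and `0 < p < 1`. For Bernoulli bond percolation on `ℤ^d` with
parameter `p`, almost surely, on every open cluster `C` (in particular on every infinite open
cluster) every integer-valued harmonic function is constant. There is no growth condition. -/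
theorem result (d : ℕ) (hd : 2 ≤ d) (p : ℝ) (hp0 : 0 < p) (hp1 : p < 1) :
    ∀ᵐ ω ∂(percolation d p), ∀ C : (openGraph ω).ConnectedComponent, ∀ u : C.supp → ℤ,
      IsHarmonic ω C u → ∀ x y : C.supp, u x = u y := by
  classical
  obtain ⟨D, rfl⟩ : ∃ D, d = D + 1 := ⟨d - 1, by omega⟩
  have h := Pool.Agent.TH974.IHA.main3 D (by omega) p hp0 hp1
  have hperc : percolation (D + 1) p = Pool.Agent.TH974.IH.perc (D + 1) p := rfl
  rw [hperc]
  filter_upwards [h] with ω hω
  intro C u hu
  set u' : (Fin (D + 1) → ℤ) → ℤ := fun x => if h : x ∈ C.supp then u ⟨x, h⟩ else 0 with hu'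
  have hval : ∀ x : C.supp, u' x = u x := by
    intro x
    simp only [hu']
    rw [dif_pos x.2]
  have hadjC : ∀ x y, (openGraph ω).Adj x y → (x ∈ C.supp ↔ y ∈ C.supp) := by
    intro x y hxy
    exact C.mem_supp_congr_adj hxy
  have hharm : ∀ x, Pool.Agent.TH974.IH.Lap ω u' x = 0 := by
    intro x
    rw [← lap_eq]
    by_cases hx : x ∈ C.supp
    · have h1 := hu ⟨x, hx⟩
      have h2 : (∑ᶠ y : C.supp, (if (openGraph ω).Adj x y then u y - u ⟨x, hx⟩ else 0)) =
          ∑ᶠ y : C.supp, (fun y => if (openGraph ω).Adj x y then u' y - u' x else 0) (y : Fin (D + 1) → ℤ) := by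
        refine finsum_congr fun y => ?_
        simp only []
        rw [hval y, ← hval ⟨x, hx⟩]
      have h3 := finsum_set_coe_eq_finsum_mem
        (f := fun y => if (openGraph ω).Adj x y then u' y - u' x else 0) C.supp
      have h4 : (∑ᶠ y : C.supp, (fun y => if (openGraph ω).Adj x y then u' y - u' x else 0)
          (y : Fin (D + 1) → ℤ)) = 0 := by rw [← h2]; exact h1
      refine Eq.trans ?_ (h3.symm.trans h4)
      refine finsum_congr fun y => ?_
      by_cases hy : y ∈ C.supp
      · rw [finsum_eq_if, if_pos hy]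
      · have : ¬ (openGraph ω).Adj x y := fun h => hy ((hadjC x y h).1 hx)
        rw [finsum_eq_if, if_neg hy, if_neg this]
    · refine finsum_eq_zero_of_forall_eq_zero fun y => ?_
      by_cases hxy : (openGraph ω).Adj x y
      · have hy : y ∉ C.supp := fun h => hx ((hadjC x y hxy).2 h)
        rw [if_pos hxy]
        simp only [hu']
        rw [dif_neg hx, dif_neg hy, sub_zero]
      · rw [if_neg hxy]
  have hedge := hω u' hharm
  have hadj : ∀ x y, (openGraph ω).Adj x y → u' x = u' y := by
    intro x y hxy
    rw [adj_iff] at hxy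
    obtain ⟨i, ⟨h1, h2⟩ | ⟨h1, h2⟩⟩ := hxy
    · have := hedge (x, i) h1
      rw [h2]; exact this.symm
    · have := hedge (y, i) h1
      rw [h2]; exact this
  have hreach : ∀ x y, (openGraph ω).Reachable x y → u' x = u' y := by
    intro x y hxy
    obtain ⟨w⟩ := hxy
    induction w with
    | nil => rfl
    | cons h _ ih => exact (hadj _ _ h).trans ih
  intro x y
  rw [← hval x, ← hval y]
  refine hreach _ _ ?_
  have hx : (openGraph ω).connectedComponentMk x = C := x.2
  have hy : (openGraph ω).connectedComponentMk y = C := y.2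
  exact SimpleGraph.ConnectedComponent.eq.1 (hx.trans hy.symm)

end Pool.Agent.Results.MP_79dc3a_pr.ClusterConstant
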